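import Pool.Agent.Run7.h608.TK.Iface

/-!
# TK: the piece DIF (Lebesgue differentiation)
-/

set_option autoImplicit false

open MeasureTheory Set Filter Topology
open scoped ENNReal
open R109.GT Run7.h608.TK

namespace Run7.h688.TK

theorem meas_tak {w : ℕ → ℤ → ℤ} (hw : Sgn w) : Measurable (tak w) := (cont w hw).measurable

theorem occ_apply {w : ℕ → ℤ → ℤ} (hw : Sgn w) {E : Set ℝ} (hE : MeasurableSet E) :
    occ w E = volume {t : ℝ | t ∈ Ico (0:ℝ) 1 ∧ tak w t ∈ E} := by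
  unfold occ
  rw [Measure.map_apply (meas_tak hw) hE, Measure.restrict_apply (meas_tak hw hE)]
  congr 1
  ext t
  exact and_comm

theorem J_sub {n : ℕ} {i : ℤ} (hi : i ∈ ivs n) {x : ℝ} (hx : x ∈ J n i) : x ∈ Ico (0:ℝ) 1 := by
  have h2 : (0:ℝ) < 2 ^ n := by positivity
  unfold ivs at hi
  rw [Finset.mem_Ico] at hi
  have h3 : ⌊(2:ℝ) ^ n * x⌋ = i := hx
  have h4 := Int.floor_le ((2:ℝ) ^ n * x)
  have h5 := Int.lt_floor_add_one ((2:ℝ) ^ n * x)
  rw [h3] at h4 h5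
  have h6 : (0:ℝ) ≤ (i:ℝ) := by exact_mod_cast hi.1
  have h7 : (i:ℝ) + 1 ≤ 2 ^ n := by exact_mod_cast hi.2
  constructor
  · by_contra hc
    push Not at hc
    nlinarith
  · by_contra hc
    push Not at hc
    nlinarith

theorem occ_sh_le (hSC : S_SC) {w : ℕ → ℤ → ℤ} (hw : Sgn w) {n : ℕ} {i : ℤ} (hi : i ∈ ivs n)
    (hs : slope w n i = 0) {E : Set ℝ} (hE : MeasurableSet E) :
    occ (sh w n i) E ≤ ENNReal.ofReal (2 ^ n) *
      occ w ((fun y : ℝ => (2:ℝ) ^ n * y - val w n i) ⁻¹' E) := by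
  obtain ⟨hsh, hsc, -⟩ := hSC w hw n i
  have h2 : (0:ℝ) < 2 ^ n := by positivity
  obtain ⟨B, hB⟩ : ∃ B : Set ℝ, B = {t : ℝ | t ∈ Ico (0:ℝ) 1 ∧ tak (sh w n i) t ∈ E} := ⟨_, rfl⟩
  have hEm : MeasurableSet ((fun y : ℝ => (2:ℝ) ^ n * y - val w n i) ⁻¹' E) := by
    apply MeasurableSet.preimage hE
    exact (measurable_const_mul _).sub_const _
  rw [occ_apply hsh hE, ← hB, occ_apply hw hEm]
  have h3 : volume ((fun x : ℝ => (2:ℝ) ^ n * x) ⁻¹' ((fun x : ℝ => x - i) ⁻¹' B)) =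
      ENNReal.ofReal ((2 ^ n)⁻¹) * volume B := by
    have h30 : volume ((fun x : ℝ => x - i) ⁻¹' B) = volume B := by
      have h31 := measure_preimage_add_right (volume : Measure ℝ) (-(i:ℝ)) B
      simpa only [sub_eq_add_neg] using h31
    rw [Real.volume_preimage_mul_left h2.ne', abs_of_pos (inv_pos.2 h2), h30]
  have h4 : (fun x : ℝ => (2:ℝ) ^ n * x) ⁻¹' ((fun x : ℝ => x - i) ⁻¹' B) ⊆
      {t : ℝ | t ∈ Ico (0:ℝ) 1 ∧ tak w t ∈ (fun y : ℝ => (2:ℝ) ^ n * y - val w n i) ⁻¹' E} := by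
    intro x hx
    have h5 : (2:ℝ) ^ n * x - i ∈ B := hx
    rw [hB] at h5
    obtain ⟨h6, h7⟩ := h5
    have hxJ : x ∈ J n i := by
      change ⌊(2:ℝ) ^ n * x⌋ = i
      rw [Int.floor_eq_iff]
      exact ⟨by linarith [h6.1], by linarith [h6.2]⟩
    refine ⟨J_sub hi hxJ, ?_⟩
    have h8 := hsc x hxJ
    rw [hs] at h8
    change (2:ℝ) ^ n * tak w x - val w n i ∈ E
    have h9 : (2:ℝ) ^ n * tak w x - val w n i = tak (sh w n i) ((2:ℝ) ^ n * x - i) := by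
      rw [h8]; push_cast; ring
    rw [h9]
    exact h7
  have h5 : volume B = ENNReal.ofReal (2 ^ n) *
      volume ((fun x : ℝ => (2:ℝ) ^ n * x) ⁻¹' ((fun x : ℝ => x - i) ⁻¹' B)) := by
    rw [h3, ← mul_assoc, ← ENNReal.ofReal_mul h2.le, mul_inv_cancel₀ h2.ne', ENNReal.ofReal_one,
      one_mul]
  rw [h5]
  gcongr

theorem occ_finite {w : ℕ → ℤ → ℤ} (hw : Sgn w) : IsFiniteMeasure (occ w) := by
  constructor
  rw [occ_apply hw MeasurableSet.univ]
  refine lt_of_le_of_lt (measure_mono (fun t ht => ht.1 : _ ⊆ Ico (0:ℝ) 1)) ?_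
  rw [Real.volume_Ico]
  exact ENNReal.ofReal_lt_top

theorem t_DIF : S_SC → S_CPT → S_FAT → S_BDC → S_DIF := by
  intro hSC hCPT hFAT hBDC w hw hne
  have hfin := occ_finite hw
  -- Lebesgue differentiation
  have hae : ∀ᵐ y ∂(volume : Measure ℝ), (∀ K : ℕ, Tendsto (fun a => occ w a / volume a)
      ((IsUnifLocDoublingMeasure.vitaliFamily (volume : Measure ℝ) (K : ℝ)).filterAt y)
      (𝓝 ((occ w).rnDeriv volume y))) ∧ (occ w).rnDeriv volume y < ∞ := by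
    have h1 : ∀ᵐ y ∂(volume : Measure ℝ), ∀ K : ℕ, Tendsto (fun a => occ w a / volume a)
      ((IsUnifLocDoublingMeasure.vitaliFamily (volume : Measure ℝ) (K : ℝ)).filterAt y)
      (𝓝 ((occ w).rnDeriv volume y)) := by
      rw [ae_all_iff]
      intro K
      exact VitaliFamily.ae_tendsto_rnDeriv _ _
    exact h1.and (Measure.rnDeriv_lt_top _ _)
  obtain ⟨y, hy, hyK, hylt⟩ : ∃ y ∈ tak w '' (Z w ∩ Ico 0 1),
      (∀ K : ℕ, Tendsto (fun a => occ w a / volume a)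
      ((IsUnifLocDoublingMeasure.vitaliFamily (volume : Measure ℝ) (K : ℝ)).filterAt y)
      (𝓝 ((occ w).rnDeriv volume y))) ∧ (occ w).rnDeriv volume y < ∞ := by
    by_contra hcon
    push Not at hcon
    apply hne
    refine measure_mono_null ?_ (ae_iff.1 hae)
    intro y hy
    change ¬ _
    rintro ⟨h1, h2⟩
    exact absurd h2 (not_lt.2 (hcon y hy h1))
  obtain ⟨x, ⟨hxZ, hx01⟩, rfl⟩ := hy
  obtain ⟨nn, hnn, hS⟩ := extraction_of_frequently_atTop hxZ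
  obtain ⟨ii, hii⟩ : ∃ ii : ℕ → ℤ, ii = fun k => ⌊(2:ℝ) ^ (nn k) * x⌋ := ⟨_, rfl⟩
  have hslope : ∀ k, slope w (nn k) (ii k) = 0 := by
    intro k; rw [hii]; exact hS k
  have hmem : ∀ k, ii k ∈ ivs (nn k) := by
    intro k
    rw [hii]
    unfold ivs
    rw [Finset.mem_Ico]
    have h2 : (0:ℝ) < 2 ^ (nn k) := by positivity
    constructor
    · exact Int.floor_nonneg.2 (mul_nonneg h2.le hx01.1)
    · rw [Int.floor_lt]
      push_cast
      have := hx01.2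
      nlinarith
  have hxJ : ∀ k, x ∈ J (nn k) (ii k) := by intro k; rw [hii]; rfl
  obtain ⟨φ, hφ, v, hv, hconv⟩ := hCPT (fun k => sh w (nn k) (ii k))
    (fun k => (hSC w hw (nn k) (ii k)).1)
  obtain ⟨h, hh⟩ : ∃ h, h = (occ w).rnDeriv volume (tak w x) := ⟨_, rfl⟩
  rw [← hh] at hylt
  refine ⟨v, h.toReal, hv, ?_⟩
  apply hBDC v h.toReal hv ENNReal.toReal_nonneg
  intro a b hab
  have hab' : (a:ℝ) < b := by exact_mod_cast hab
  have h1 := hFAT (fun k => sh w (nn (φ k)) (ii (φ k))) v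
    (fun k => (hSC w hw (nn (φ k)) (ii (φ k))).1) hv hconv a b
  refine h1.trans ?_
  obtain ⟨N, hN⟩ : ∃ N : ℕ → ℕ, N = fun k => nn (φ k) := ⟨_, rfl⟩
  have hNt : Tendsto N atTop atTop := by
    rw [hN]; exact (hnn.comp hφ).tendsto_atTop
  obtain ⟨cen, hcen⟩ : ∃ cen : ℕ → ℝ, cen = fun k =>
    ((val w (N k) (ii (φ k)) : ℝ) + (a + b) / 2) / 2 ^ (N k) := ⟨_, rfl⟩
  obtain ⟨δ, hδ⟩ : ∃ δ : ℕ → ℝ, δ = fun k => ((b:ℝ) - a) / 2 / 2 ^ (N k) := ⟨_, rfl⟩
  have hδpos : ∀ k, 0 < δ k := by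
    intro k; rw [hδ]
    have : 0 < (b:ℝ) - a := by linarith
    positivity
  have hδlim : Tendsto δ atTop (𝓝[>] 0) := by
    rw [tendsto_nhdsWithin_iff]
    refine ⟨?_, Eventually.of_forall fun k => hδpos k⟩
    have h2 : Tendsto (fun k => ((1:ℝ) / 2) ^ (N k)) atTop (𝓝 0) :=
      (tendsto_pow_atTop_nhds_zero_of_lt_one (by norm_num) (by norm_num)).comp hNt
    have h3 := h2.const_mul (((b:ℝ) - a) / 2)
    rw [mul_zero] at h3
    refine h3.congr ?_
    intro k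
    rw [hδ]
    simp only [one_div, inv_pow]
    rw [div_eq_mul_inv (((b:ℝ) - a) / 2)]
  obtain ⟨K, hK⟩ := exists_nat_ge ((2 + |(a:ℝ) + b|) / (b - a))
  have hKab : 2 + |(a:ℝ) + b| ≤ K * (b - a) := by
    rwa [div_le_iff₀ (by linarith)] at hK
  have hNφ : ∀ k, N k = nn (φ k) := by intro k; rw [hN]
  have hmemK : ∀ k, tak w x ∈ Metric.closedBall (cen k) (K * δ k) := by
    intro k
    have h2 : (0:ℝ) < 2 ^ (N k) := by positivity
    obtain ⟨hsh, hsc, -⟩ := hSC w hw (nn (φ k)) (ii (φ k))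
    have h3 := hsc x (hxJ (φ k))
    rw [hslope] at h3
    have h4 := bound _ hsh ((2:ℝ) ^ nn (φ k) * x - ii (φ k))
    rw [← hNφ k] at h3 h4
    rw [Metric.mem_closedBall, Real.dist_eq, hcen, hδ]
    simp only
    have h5 : tak w x - ((val w (N k) (ii (φ k)) : ℝ) + (a + b) / 2) / 2 ^ (N k) =
        (tak (sh w (N k) (ii (φ k))) ((2:ℝ) ^ (N k) * x - ii (φ k)) - (a + b) / 2) / 2 ^ (N k) := by
      rw [eq_div_iff h2.ne', sub_mul, div_mul_cancel₀ _ h2.ne', mul_comm (tak w x), h3]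
      push_cast
      ring
    rw [h5, abs_div, abs_of_pos h2]
    rw [div_le_iff₀ h2]
    have h6 : (K:ℝ) * (((b:ℝ) - a) / 2 / 2 ^ (N k)) * 2 ^ (N k) = K * (b - a) / 2 := by
      field_simp
    rw [h6]
    have h7 := abs_sub (tak (sh w (N k) (ii (φ k))) ((2:ℝ) ^ (N k) * x - ii (φ k)))
      (((a:ℝ) + b) / 2)
    rw [abs_div, abs_of_pos (by norm_num : (0:ℝ) < 2)] at h7
    linarith
  have hlim := (hyK K).comp (IsUnifLocDoublingMeasure.tendsto_closedBall_filterAt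
    (μ := (volume : Measure ℝ)) (K := (K : ℝ)) (x := tak w x) cen δ hδlim
    (Eventually.of_forall hmemK))
  rw [← hh] at hlim
  have hlim2 : Tendsto (fun k => occ w (Metric.closedBall (cen k) (δ k)) /
      volume (Metric.closedBall (cen k) (δ k)) * ENNReal.ofReal ((b:ℝ) - a)) atTop
      (𝓝 (h * ENNReal.ofReal ((b:ℝ) - a))) :=
    ENNReal.Tendsto.mul_const hlim (Or.inr ENNReal.ofReal_ne_top)
  have hle : ∀ k, occ (sh w (nn (φ k)) (ii (φ k))) (Icc (a:ℝ) b) ≤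
      occ w (Metric.closedBall (cen k) (δ k)) /
      volume (Metric.closedBall (cen k) (δ k)) * ENNReal.ofReal ((b:ℝ) - a) := by
    intro k
    have h2 : (0:ℝ) < 2 ^ (N k) := by positivity
    refine (occ_sh_le hSC hw (hmem (φ k)) (hslope (φ k)) measurableSet_Icc).trans ?_
    have h3 : (fun y : ℝ => (2:ℝ) ^ (nn (φ k)) * y - val w (nn (φ k)) (ii (φ k))) ⁻¹' Icc (a:ℝ) b =
        Metric.closedBall (cen k) (δ k) := by
      rw [← hNφ k, Real.closedBall_eq_Icc]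
      ext z
      rw [mem_preimage, mem_Icc, mem_Icc, hcen, hδ]
      simp only
      have e1 : ((val w (N k) (ii (φ k)) : ℝ) + (a + b) / 2) / 2 ^ (N k) -
          ((b:ℝ) - a) / 2 / 2 ^ (N k) = ((val w (N k) (ii (φ k)) : ℝ) + a) / 2 ^ (N k) := by ring
      have e2 : ((val w (N k) (ii (φ k)) : ℝ) + (a + b) / 2) / 2 ^ (N k) +
          ((b:ℝ) - a) / 2 / 2 ^ (N k) = ((val w (N k) (ii (φ k)) : ℝ) + b) / 2 ^ (N k) := by ring
      rw [e1, e2, div_le_iff₀ h2, le_div_iff₀ h2, mul_comm z]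
      constructor
      · rintro ⟨h5, h6⟩; exact ⟨by linarith, by linarith⟩
      · rintro ⟨h5, h6⟩; exact ⟨by linarith, by linarith⟩
    rw [h3, Real.volume_closedBall]
    have h4 : 2 * δ k = ((b:ℝ) - a) / 2 ^ (N k) := by rw [hδ]; ring
    rw [h4, ENNReal.ofReal_div_of_pos h2, ← hNφ k]
    have hba : ENNReal.ofReal ((b:ℝ) - a) ≠ 0 := by
      rw [ENNReal.ofReal_ne_zero_iff]; linarith
    have h2n : ENNReal.ofReal ((2:ℝ) ^ (N k)) ≠ 0 := by
      rw [ENNReal.ofReal_ne_zero_iff]; exact h2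
    apply le_of_eq
    rw [ENNReal.div_eq_inv_mul (a := occ w _), ENNReal.inv_div (Or.inl ENNReal.ofReal_ne_top)
      (Or.inl h2n), ENNReal.div_eq_inv_mul]
    calc ENNReal.ofReal (2 ^ N k) * occ w (Metric.closedBall (cen k) (δ k))
        = ENNReal.ofReal (2 ^ N k) * occ w (Metric.closedBall (cen k) (δ k)) *
          ((ENNReal.ofReal ((b:ℝ) - a))⁻¹ * ENNReal.ofReal ((b:ℝ) - a)) := by
          rw [ENNReal.inv_mul_cancel hba ENNReal.ofReal_ne_top, mul_one]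
      _ = _ := by ring
  calc liminf (fun k => occ (sh w (nn (φ k)) (ii (φ k))) (Icc (a:ℝ) b)) atTop
      ≤ liminf (fun k => occ w (Metric.closedBall (cen k) (δ k)) /
      volume (Metric.closedBall (cen k) (δ k)) * ENNReal.ofReal ((b:ℝ) - a)) atTop :=
        liminf_le_liminf (Eventually.of_forall hle)
    _ = h * ENNReal.ofReal ((b:ℝ) - a) := hlim2.liminf_eq
    _ = ENNReal.ofReal (h.toReal * ((b:ℝ) - a)) := by
        rw [ENNReal.ofReal_mul ENNReal.toReal_nonneg, ENNReal.ofReal_toReal hylt.ne]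
    _ ≤ _ := le_rfl

end Run7.h688.TK
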