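import Pool.Agent.Run7.h688.TK.DIF

/-!
# TK: the piece GOOD
-/

set_option autoImplicit false

open MeasureTheory Set Filter Topology
open scoped ENNReal
open R109.GT Run7.h608.TK

namespace Run7.h688.TK

theorem sum_ivs_succ {X : Type*} [AddCommMonoid X] (n : ℕ) (f : ℤ → X) :
    ∑ i ∈ ivs (n + 1), f i = ∑ j ∈ ivs n, (f (2 * j) + f (2 * j + 1)) := by
  have hmap : ∀ i ∈ ivs (n + 1), i / 2 ∈ ivs n := by
    intro i hi
    unfold ivs at hi ⊢
    rw [Finset.mem_Ico] at hi ⊢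
    rw [pow_succ] at hi
    omega
  rw [← Finset.sum_fiberwise_of_maps_to hmap]
  apply Finset.sum_congr rfl
  intro j hj
  have h1 : (ivs (n + 1)).filter (fun i => i / 2 = j) = {2 * j, 2 * j + 1} := by
    ext i
    unfold ivs at hj ⊢
    rw [Finset.mem_Ico] at hj
    rw [Finset.mem_filter, Finset.mem_Ico, Finset.mem_insert, Finset.mem_singleton, pow_succ]
    omega
  rw [h1, Finset.sum_insert (by rw [Finset.mem_singleton]; omega), Finset.sum_singleton]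

theorem slope_even (w : ℕ → ℤ → ℤ) (n : ℕ) (j : ℤ) :
    slope w (n + 1) (2 * j) = slope w n j + w n j := by
  change slope w n (2 * j / 2) + w n (2 * j / 2) * (if 2 * j % 2 = 0 then 1 else -1) = _
  have h1 : 2 * j / 2 = j := by omega
  have h2 : 2 * j % 2 = 0 := by omega
  rw [h1, if_pos h2, mul_one]

theorem slope_odd (w : ℕ → ℤ → ℤ) (n : ℕ) (j : ℤ) :
    slope w (n + 1) (2 * j + 1) = slope w n j - w n j := by
  change slope w n ((2 * j + 1) / 2) + w n ((2 * j + 1) / 2) *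
    (if (2 * j + 1) % 2 = 0 then 1 else -1) = _
  have h1 : (2 * j + 1) / 2 = j := by omega
  have h2 : ¬ (2 * j + 1) % 2 = 0 := by omega
  rw [h1, if_neg h2]
  ring

theorem card_ivs (n : ℕ) : (ivs n).card = 2 ^ n := by
  unfold ivs
  rw [Int.card_Ico, sub_zero]
  have h : ((2:ℤ) ^ n) = ((2 ^ n : ℕ) : ℤ) := by push_cast; rfl
  rw [h, Int.toNat_natCast]

theorem sgn_sq {w : ℕ → ℤ → ℤ} (hw : Sgn w) (n : ℕ) (j : ℤ) : w n j ^ 2 = 1 := by
  rcases hw n j with h | h <;> rw [h] <;> norm_num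

theorem sum_slope_sq {w : ℕ → ℤ → ℤ} (hw : Sgn w) (n : ℕ) :
    ∑ i ∈ ivs n, slope w n i ^ 2 = n * 2 ^ n := by
  induction n with
  | zero =>
    apply Finset.sum_eq_zero_iff_of_nonneg (fun i _ => sq_nonneg _) |>.2 ?_ |>.trans
    · simp
    · intro i _
      rfl
  | succ n ih =>
    rw [sum_ivs_succ]
    have h1 : ∀ j ∈ ivs n, slope w (n + 1) (2 * j) ^ 2 + slope w (n + 1) (2 * j + 1) ^ 2 =
        2 * slope w n j ^ 2 + 2 := by
      intro j _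
      rw [slope_even, slope_odd]
      have := sgn_sq hw n j
      linear_combination 2 * this
    rw [Finset.sum_congr rfl h1, Finset.sum_add_distrib, ← Finset.mul_sum, ih, Finset.sum_const,
      card_ivs]
    push_cast
    rw [nsmul_eq_mul]
    push_cast
    ring

theorem sum_slope_abs {w : ℕ → ℤ → ℤ} (hw : Sgn w) (n : ℕ) :
    ∑ i ∈ ivs n, |(slope w n i : ℝ)| ≤ 2 ^ n * √n := by
  have h1 : (∑ i ∈ ivs n, |(slope w n i : ℝ)|) ^ 2 ≤ (ivs n).card *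
      ∑ i ∈ ivs n, |(slope w n i : ℝ)| ^ 2 := sq_sum_le_card_mul_sum_sq
  have h2 : ∑ i ∈ ivs n, |(slope w n i : ℝ)| ^ 2 = n * 2 ^ n := by
    have := sum_slope_sq hw n
    have h3 : ((∑ i ∈ ivs n, slope w n i ^ 2 : ℤ) : ℝ) = ((n * 2 ^ n : ℤ) : ℝ) := by rw [this]
    push_cast at h3
    rw [← h3]
    apply Finset.sum_congr rfl
    intro i _
    rw [sq_abs]
  rw [h2, card_ivs] at h1
  refine le_of_sq_le_sq ?_ (by positivity)
  rw [mul_pow, Real.sq_sqrt (by positivity)]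
  push_cast at h1
  nlinarith [h1]

theorem nohit (hHIT : S_HIT) {w : ℕ → ℤ → ℤ} (hw : Sgn w) (N T b : ℕ) (hT : 1 ≤ T) (hb : 1 ≤ b) :
    volume {x : ℝ | x ∈ Ico (0:ℝ) 1 ∧ ∀ m, N ≤ m → m ≤ N + T → S w m x ≠ 0} ≤
      ENNReal.ofReal (√N * (1 / b + b / T)) := by
  have h2 : (0:ℝ) < 2 ^ N := by positivity
  have hsub : {x : ℝ | x ∈ Ico (0:ℝ) 1 ∧ ∀ m, N ≤ m → m ≤ N + T → S w m x ≠ 0} ⊆
      ⋃ i ∈ ivs N, {x : ℝ | x ∈ J N i ∧ ∀ m, N ≤ m → m ≤ N + T → S w m x ≠ 0} := by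
    rintro x ⟨hx, hx2⟩
    rw [mem_iUnion₂]
    refine ⟨⌊(2:ℝ) ^ N * x⌋, ?_, rfl, hx2⟩
    unfold ivs
    rw [Finset.mem_Ico]
    constructor
    · apply Int.floor_nonneg.2
      exact mul_nonneg h2.le hx.1
    · rw [Int.floor_lt]
      push_cast
      nlinarith [hx.2]
  refine (measure_mono hsub).trans ((measure_biUnion_finset_le _ _).trans ?_)
  refine (Finset.sum_le_sum (fun i _ => hHIT w hw N T b i hT hb)).trans ?_
  have hT0 : (0:ℝ) < T := by exact_mod_cast hT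
  have hb0 : (0:ℝ) < b := by exact_mod_cast hb
  rw [← ENNReal.ofReal_sum_of_nonneg (fun i _ => by positivity)]
  apply ENNReal.ofReal_le_ofReal
  have h3 : ∑ i ∈ ivs N, (|(slope w N i : ℝ)| / b + |(slope w N i : ℝ)| * b / T) / 2 ^ N =
      (1 / b + b / T) / 2 ^ N * ∑ i ∈ ivs N, |(slope w N i : ℝ)| := by
    rw [Finset.mul_sum]
    apply Finset.sum_congr rfl
    intro i _
    field_simp
  rw [h3]
  have h4 := sum_slope_abs hw N
  have h5 : (0:ℝ) ≤ (1 / b + b / T) / 2 ^ N := by positivity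
  calc (1 / b + b / T) / 2 ^ N * ∑ i ∈ ivs N, |(slope w N i : ℝ)|
      ≤ (1 / b + b / T) / 2 ^ N * (2 ^ N * √N) := mul_le_mul_of_nonneg_left h4 h5
    _ = √N * (1 / b + b / T) := by field_simp

theorem mem_J_self (n : ℕ) (x : ℝ) : x ∈ J n ⌊(2:ℝ) ^ n * x⌋ := rfl

theorem pz_vol (hPZ : S_PZ) {w : ℕ → ℤ → ℤ} (hw : Sgn w) {n : ℕ} (hn : 1 ≤ n) :
    ENNReal.ofReal (3 / 16) ≤ volume {x : ℝ | x ∈ Ico (0:ℝ) 1 ∧ (n:ℤ) ≤ 4 * (S w n x) ^ 2} := by
  obtain ⟨F, hF⟩ : ∃ F, F = (ivs n).filter (fun i => (n:ℤ) ≤ 4 * (slope w n i) ^ 2) := ⟨_, rfl⟩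
  have h1 := hPZ w hw n hn
  rw [← hF] at h1
  have hsub : (⋃ i ∈ F, J n i) ⊆ {x : ℝ | x ∈ Ico (0:ℝ) 1 ∧ (n:ℤ) ≤ 4 * (S w n x) ^ 2} := by
    intro x hx
    rw [mem_iUnion₂] at hx
    obtain ⟨i, hi, hxi⟩ := hx
    rw [hF, Finset.mem_filter] at hi
    refine ⟨J_sub hi.1 hxi, ?_⟩
    have h3 : ⌊(2:ℝ) ^ n * x⌋ = i := hxi
    unfold S
    rw [h3]
    exact hi.2
  refine le_trans ?_ (measure_mono hsub)
  rw [measure_biUnion_finset (fun i _ j _ hij => PC.J_disj n hij) (fun i _ => PC.measurableSet_J n i)]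
  rw [Finset.sum_congr rfl (fun i _ => vol_J n i), Finset.sum_const, nsmul_eq_mul,
    ← ENNReal.ofReal_natCast, ← ENNReal.ofReal_mul (by positivity)]
  apply ENNReal.ofReal_le_ofReal
  have h2 : (0:ℝ) < 2 ^ n := by positivity
  have h4 : (3:ℝ) * 2 ^ n ≤ 16 * F.card := by exact_mod_cast h1
  rw [mul_one_div, le_div_iff₀ h2]
  linarith

theorem t_GOOD : S_HIT → S_PZ → S_BAD → S_NMON → S_GOOD := by
  intro hHIT hPZ hBAD hNMON D hD
  obtain ⟨m, hm⟩ : ∃ m : ℕ, 512 * D < 2 ^ m := pow_unbounded_of_one_lt _ (by norm_num)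
  refine ⟨1 / 512, by norm_num, m, 2 ^ 14, 16 * m ^ 2 + 1, by norm_num, ?_⟩
  intro w hw hbd n hn
  have hn1 : 1 ≤ n := by omega
  have hmn : m ≤ n := by nlinarith
  obtain ⟨q, hq⟩ : ∃ q : ℝ, q = √n := ⟨_, rfl⟩
  have hqq : q ^ 2 = n := by rw [hq]; exact Real.sq_sqrt (by positivity)
  have hn1r : (1:ℝ) ≤ n := by exact_mod_cast hn1
  have hq1 : 1 ≤ q := by
    rw [hq]
    exact Real.one_le_sqrt.2 hn1r
  -- the no-hit set
  obtain ⟨T, hT⟩ : ∃ T, T = 2 ^ 14 * n - n - m := ⟨_, rfl⟩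
  have hT1 : 16382 * n ≤ T := by rw [hT]; omega
  obtain ⟨b, hb⟩ : ∃ b : ℕ, b = 128 * (Nat.sqrt n + 1) := ⟨_, rfl⟩
  have hb1 : (128:ℝ) * q ≤ b := by
    have h1 : q ≤ Nat.sqrt n + 1 := by
      rw [hq]
      exact Real.real_sqrt_le_nat_sqrt_succ
    rw [hb]
    push_cast
    linarith
  have hb2 : (b:ℝ) ≤ 256 * q := by
    have h1 : (Nat.sqrt n : ℝ) ≤ q := by
      rw [hq]
      exact Real.nat_sqrt_le_real_sqrt
    rw [hb]
    push_cast
    linarith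
  have hNq : √((n + m : ℕ) : ℝ) ≤ 3 / 2 * q := by
    rw [Real.sqrt_le_left (by positivity)]
    push_cast
    have : (m:ℝ) ≤ n := by exact_mod_cast hmn
    nlinarith
  have hC := nohit hHIT hw (n + m) T b (by omega) (by rw [hb]; omega)
  have hC2 : √((n + m : ℕ) : ℝ) * (1 / b + b / T) ≤ 1 / 16 := by
    have hT2 : (16382:ℝ) * q ^ 2 ≤ T := by rw [hqq]; exact_mod_cast hT1
    have hq0 : 0 < q := by linarith
    have h1 : 1 / (b:ℝ) ≤ 1 / (128 * q) := one_div_le_one_div_of_le (by positivity) hb1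
    have h2 : (b:ℝ) / T ≤ 256 * q / (16382 * q ^ 2) :=
      div_le_div₀ (by positivity) hb2 (by positivity) hT2
    have h3 : (0:ℝ) ≤ 1 / b + b / T := by positivity
    calc √((n + m : ℕ) : ℝ) * (1 / b + b / T) ≤ (3 / 2 * q) * (1 / b + b / T) :=
          mul_le_mul_of_nonneg_right hNq h3
      _ ≤ (3 / 2 * q) * (1 / (128 * q) + 256 * q / (16382 * q ^ 2)) := by
          apply mul_le_mul_of_nonneg_left _ (by positivity)
          linarith
      _ = 3 / 256 + 384 / 16382 := by field_simp; ring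
      _ ≤ 1 / 16 := by norm_num
  have hC3 := hC.trans (ENNReal.ofReal_le_ofReal hC2)
  -- the bad set
  have hB := hBAD w D (1 / 512) m n hw hbd hD (by norm_num) hn1 (by omega)
  have hB2 : 16 * (1 / 512) + 16 * D / 2 ^ m ≤ (1:ℝ) / 16 := by
    have h1 : 16 * D / 2 ^ m ≤ 1 / 32 := by
      rw [div_le_iff₀ (by positivity)]
      linarith
    linarith
  have hB3 := hB.trans (ENNReal.ofReal_le_ofReal hB2)
  have hA := pz_vol hPZ hw hn1
  have hsub : {x : ℝ | x ∈ Ico (0:ℝ) 1 ∧ (n:ℤ) ≤ 4 * (S w n x) ^ 2} ⊆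
      Gs w (n + m) (2 ^ 14 * n) (1 / 512 * √n) ∪
      {x : ℝ | x ∈ Ico (0:ℝ) 1 ∧ (n:ℤ) ≤ 4 * (S w n x) ^ 2 ∧
        ((Nc w n ⌊(2:ℝ) ^ n * tak w x⌋ : ℝ) < 1 / 512 * √n ∨
        |(2:ℝ) ^ n * tak w x - round ((2:ℝ) ^ n * tak w x)| ≤ 2 / 2 ^ m)} ∪
      {x : ℝ | x ∈ Ico (0:ℝ) 1 ∧ ∀ m', n + m ≤ m' → m' ≤ n + m + T → S w m' x ≠ 0} := by
    rintro x ⟨hx, hx2⟩
    by_cases hxC : ∀ m', n + m ≤ m' → m' ≤ n + m + T → S w m' x ≠ 0
    · exact Or.inr ⟨hx, hxC⟩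
    left
    by_cases hxB : (Nc w n ⌊(2:ℝ) ^ n * tak w x⌋ : ℝ) < 1 / 512 * √n ∨
        |(2:ℝ) ^ n * tak w x - round ((2:ℝ) ^ n * tak w x)| ≤ 2 / 2 ^ m
    · exact Or.inr ⟨hx, hx2, hxB⟩
    left
    push Not at hxC hxB
    classical
    have hex : ∃ s, n + m ≤ s ∧ S w s x = 0 := by
      obtain ⟨s, h1, -, h3⟩ := hxC
      exact ⟨s, h1, h3⟩
    refine ⟨hx, Nat.find hex, (Nat.find_spec hex).1, ?_, (Nat.find_spec hex).2, ?_, ?_⟩
    · obtain ⟨s, h1, h2, h3⟩ := hxC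
      have h4 : Nat.find hex ≤ s := Nat.find_min' hex ⟨h1, h3⟩
      omega
    · intro s' h1 h2 h3
      exact Nat.find_min hex h2 ⟨h1, h3⟩
    · refine hxB.1.trans ?_
      have h5 := hNMON w hw n m (Nat.find hex) x hx (Nat.find_spec hex).1 (Nat.find_spec hex).2
        hxB.2
      exact_mod_cast h5
  have hfin := (measure_mono (μ := volume) hsub).trans ((measure_union_le _ _).trans
    (add_le_add_left (measure_union_le _ _) _))
  have h9 : ENNReal.ofReal (1 / 16) + (ENNReal.ofReal (1 / 16) + ENNReal.ofReal (1 / 16)) ≤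
      volume (Gs w (n + m) (2 ^ 14 * n) (1 / 512 * √n)) +
        (ENNReal.ofReal (1 / 16) + ENNReal.ofReal (1 / 16)) := by
    calc ENNReal.ofReal (1 / 16) + (ENNReal.ofReal (1 / 16) + ENNReal.ofReal (1 / 16))
        = ENNReal.ofReal (3 / 16) := by
          rw [← ENNReal.ofReal_add (by norm_num) (by norm_num),
            ← ENNReal.ofReal_add (by norm_num) (by norm_num)]
          norm_num
      _ ≤ _ := hA
      _ ≤ _ := hfin
      _ ≤ volume (Gs w (n + m) (2 ^ 14 * n) (1 / 512 * √n)) + ENNReal.ofReal (1 / 16) +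
          ENNReal.ofReal (1 / 16) := by gcongr
      _ = _ := add_assoc _ _ _
  exact (ENNReal.add_le_add_iff_right (by
    rw [← ENNReal.ofReal_add (by norm_num) (by norm_num)]; exact ENNReal.ofReal_ne_top)).1 h9

end Run7.h688.TK
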